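import Mathlib

/-!
# Gaussian-extremizable Brascamp-Lieb data are not dense among the feasible ones
-/

open MeasureTheory Matrix
open scoped ENNReal

namespace Pool.Agent.Results.MP_b8a264_an.NotDense

variable {k d : ℕ}

/-- `(B, c)` is a Brascamp-Lieb datum: every `B i : ℝ^d → ℝ^(dd i)` is onto and every exponent
`c i` is positive. -/
def IsDatum (dd : Fin k → ℕ) (B : ∀ i, Matrix (Fin (dd i)) (Fin d) ℝ) (c : Fin k → ℝ) : Prop :=
  (∀ i, Function.Surjective fun x : Fin d → ℝ => B i *ᵥ x) ∧ ∀ i, 0 < c i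

/-- The Brascamp-Lieb inequality with constant `C`, for all nonnegative integrable inputs. -/
def BLIneq (dd : Fin k → ℕ) (B : ∀ i, Matrix (Fin (dd i)) (Fin d) ℝ) (c : Fin k → ℝ)
    (C : ℝ≥0∞) : Prop :=
  ∀ f : ∀ i, (Fin (dd i) → ℝ) → ℝ, (∀ i, Integrable (f i)) → (∀ i y, 0 ≤ f i y) →
    ∫⁻ x : Fin d → ℝ, ENNReal.ofReal (∏ i, f i (B i *ᵥ x) ^ c i) ≤
      C * ENNReal.ofReal (∏ i, (∫ y, f i y) ^ c i)

/-- The Brascamp-Lieb constant. -/
noncomputable def BLConst (dd : Fin k → ℕ) (B : ∀ i, Matrix (Fin (dd i)) (Fin d) ℝ)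
    (c : Fin k → ℝ) : ℝ≥0∞ :=
  sInf {C | BLIneq dd B c C}

/-- A feasible datum: the Brascamp-Lieb constant is finite. -/
def Feasible (dd : Fin k → ℕ) (B : ∀ i, Matrix (Fin (dd i)) (Fin d) ℝ) (c : Fin k → ℝ) : Prop :=
  IsDatum dd B c ∧ BLConst dd B c < ⊤

/-- The gaussian functional at the tuple `A`, with value in `[0, ∞]` (it is `∞` when the
denominator vanishes and the numerator does not). -/
noncomputable def ratio (dd : Fin k → ℕ) (B : ∀ i, Matrix (Fin (dd i)) (Fin d) ℝ)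
    (c : Fin k → ℝ) (A : ∀ i, Matrix (Fin (dd i)) (Fin (dd i)) ℝ) : ℝ≥0∞ :=
  (ENNReal.ofReal (∏ i, (A i).det ^ c i) /
    ENNReal.ofReal (∑ i, c i • ((B i)ᵀ * A i * B i)).det) ^ (1 / 2 : ℝ)

/-- The gaussian constant. -/
noncomputable def BLGauss (dd : Fin k → ℕ) (B : ∀ i, Matrix (Fin (dd i)) (Fin d) ℝ)
    (c : Fin k → ℝ) : ℝ≥0∞ :=
  ⨆ (A : ∀ i, Matrix (Fin (dd i)) (Fin (dd i)) ℝ) (_ : ∀ i, (A i).PosDef), ratio dd B c A

/-- A gaussian-extremizable datum: the gaussian supremum is finite and attained. -/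
def GaussExtremizable (dd : Fin k → ℕ) (B : ∀ i, Matrix (Fin (dd i)) (Fin d) ℝ)
    (c : Fin k → ℝ) : Prop :=
  IsDatum dd B c ∧ BLGauss dd B c < ⊤ ∧
    ∃ A : ∀ i, Matrix (Fin (dd i)) (Fin (dd i)) ℝ, (∀ i, (A i).PosDef) ∧
      ratio dd B c A = BLGauss dd B c

/-! ## The determinant -/

/-- the `3 × 3` determinant with the given rows -/
noncomputable def dt (x y z : Fin 3 → ℝ) : ℝ :=
  x 0 * y 1 * z 2 - x 0 * y 2 * z 1 - x 1 * y 0 * z 2 + x 1 * y 2 * z 0 + x 2 * y 0 * z 1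
    - x 2 * y 1 * z 0

theorem det_formula (U : Matrix (Fin 2) (Fin 3) ℝ) (b e : Matrix (Fin 1) (Fin 3) ℝ)
    (A : Matrix (Fin 2) (Fin 2) ℝ) (hA : A 1 0 = A 0 1) (a a' : Matrix (Fin 1) (Fin 1) ℝ)
    (c1 c2 c3 : ℝ) :
    (c1 • (Uᵀ * A * U) + c2 • (bᵀ * a * b) + c3 • (eᵀ * a' * e)).det =
      c1 ^ 2 * A.det * (c2 * a.det * dt (U 0) (U 1) (b 0) ^ 2
        + c3 * a'.det * dt (U 0) (U 1) (e 0) ^ 2)
      + c1 * c2 * c3 * a.det * a'.det *
        (dt (U 0) (b 0) (e 0) ^ 2 * A 0 0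
        + 2 * dt (U 0) (b 0) (e 0) * dt (U 1) (b 0) (e 0) * A 0 1
        + dt (U 1) (b 0) (e 0) ^ 2 * A 1 1) := by
  simp [Matrix.det_fin_three, Matrix.det_fin_two, Matrix.mul_apply, Fin.sum_univ_succ, hA, dt]
  ring

/-! ## The example -/

/-- the dimensions `2, 1, 1` -/
def dims : Fin 3 → ℕ
  | 0 => 2
  | 1 => 1
  | 2 => 1

/-- the maps `(x₁, x₂)`, `x₃`, `x₁ + x₃` -/
noncomputable def exB : ∀ i, Matrix (Fin (dims i)) (Fin 3) ℝ
  | 0 => !![1, 0, 0; 0, 1, 0]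
  | 1 => !![0, 0, 1]
  | 2 => !![1, 0, 1]

/-- the exponents `1, 1/2, 1/2` -/
noncomputable def exC : Fin 3 → ℝ
  | 0 => 1
  | 1 => 1 / 2
  | 2 => 1 / 2

/-- tuples for the dimensions `2, 1, 1` -/
def tup (A1 : Matrix (Fin 2) (Fin 2) ℝ) (A2 A3 : Matrix (Fin 1) (Fin 1) ℝ) :
    ∀ i, Matrix (Fin (dims i)) (Fin (dims i)) ℝ
  | 0 => A1
  | 1 => A2
  | 2 => A3

/-! ## Nothing near the example is extremizable -/

theorem posDef_one : (1 : Matrix (Fin 1) (Fin 1) ℝ).PosDef := Matrix.PosDef.one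

theorem posDef_two (p q μ : ℝ) (hμ : 0 < μ) :
    (!![q ^ 2 + μ, -(p * q); -(p * q), p ^ 2 + μ] : Matrix (Fin 2) (Fin 2) ℝ).PosDef := by
  refine Matrix.PosDef.of_dotProduct_mulVec_pos ?_ ?_
  · ext i j
    fin_cases i <;> fin_cases j <;> simp
  · intro x hx
    have h : x 0 ^ 2 + x 1 ^ 2 > 0 := by
      by_contra h
      push Not at h
      have h0 : x 0 = 0 := by nlinarith [sq_nonneg (x 0), sq_nonneg (x 1)]
      have h1 : x 1 = 0 := by nlinarith [sq_nonneg (x 0), sq_nonneg (x 1)]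
      apply hx
      ext i
      fin_cases i
      · exact h0
      · exact h1
    simp only [dotProduct, Matrix.mulVec, Fin.sum_univ_two, Matrix.of_apply, Matrix.cons_val',
      Matrix.cons_val_zero, Matrix.cons_val_one, Pi.star_apply, star_trivial,
      Matrix.cons_val_fin_one]
    nlinarith [sq_nonneg (q * x 0 - p * x 1), mul_pos hμ h]

/-- an extremizer gives a bound for the determinants -/
theorem bound_of_ext {dd : Fin k → ℕ} {B : ∀ i, Matrix (Fin (dd i)) (Fin d) ℝ} {c : Fin k → ℝ}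
    {A A' : ∀ i, Matrix (Fin (dd i)) (Fin (dd i)) ℝ} (hA : ratio dd B c A = BLGauss dd B c)
    (hpA : ∀ i, (A i).PosDef) (hA' : ∀ i, (A' i).PosDef)
    (h1 : 0 < (∑ i, c i • ((B i)ᵀ * A i * B i)).det)
    (h2 : 0 < (∑ i, c i • ((B i)ᵀ * A' i * B i)).det) :
    (∏ i, (A' i).det ^ c i) * (∑ i, c i • ((B i)ᵀ * A i * B i)).det ≤
      (∏ i, (A i).det ^ c i) * (∑ i, c i • ((B i)ᵀ * A' i * B i)).det := by
  have hle : ratio dd B c A' ≤ ratio dd B c A := by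
    rw [hA]
    exact le_iSup₂ (f := fun (A : ∀ i, Matrix (Fin (dd i)) (Fin (dd i)) ℝ)
      (_ : ∀ i, (A i).PosDef) => ratio dd B c A) A' hA'
  unfold ratio at hle
  rw [ENNReal.rpow_le_rpow_iff (by norm_num), ← ENNReal.ofReal_div_of_pos h1,
    ← ENNReal.ofReal_div_of_pos h2] at hle
  have hpos : 0 ≤ (∏ i, (A i).det ^ c i) / (∑ i, c i • ((B i)ᵀ * A i * B i)).det := by
    apply div_nonneg _ h1.le
    apply Finset.prod_nonneg
    intro i _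
    exact Real.rpow_nonneg (hpA i).det_pos.le _
  rw [ENNReal.ofReal_le_ofReal_iff hpos, div_le_div_iff₀ h2 h1] at hle
  exact hle

theorem c_ge_one {c K w : ℝ} (hw : 0 < w) (hK : 0 ≤ K)
    (h : ∀ μ : ℝ, 0 < μ → μ ≤ 1 → (μ * (w + μ)) ^ c ≤ K * μ) (hc : 0 < c) : 1 ≤ c := by
  by_contra hlt
  push Not at hlt
  set L : ℝ := K / w ^ c with hL
  have hwc : 0 < w ^ c := Real.rpow_pos_of_pos hw c
  have hL0 : 0 ≤ L := div_nonneg hK hwc.le
  set μ : ℝ := (L + 1) ^ (1 / (c - 1)) with hμ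
  have hμ0 : 0 < μ := Real.rpow_pos_of_pos (by linarith) _
  have hμ1 : μ ≤ 1 := by
    apply Real.rpow_le_one_of_one_le_of_nonpos (by linarith)
    exact div_nonpos_of_nonneg_of_nonpos zero_le_one (by linarith)
  have h1 := h μ hμ0 hμ1
  have h2 : (μ * w) ^ c ≤ (μ * (w + μ)) ^ c := by
    apply Real.rpow_le_rpow (by positivity) _ hc.le
    apply mul_le_mul_of_nonneg_left _ hμ0.le
    linarith
  rw [Real.mul_rpow hμ0.le hw.le] at h2
  have h3 : μ ^ c = μ ^ (c - 1) * μ := by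
    rw [← Real.rpow_add_one hμ0.ne']
    congr 1
    ring
  have h4 : μ ^ (c - 1) = L + 1 := by
    rw [hμ, ← Real.rpow_mul (by linarith), one_div, inv_mul_cancel₀ (by linarith),
      Real.rpow_one]
  have h5 : K = L * w ^ c := by
    rw [hL]
    field_simp
  rw [h3, h4] at h2
  have h6 : (L + 1) * μ * w ^ c ≤ L * w ^ c * μ := by
    calc (L + 1) * μ * w ^ c ≤ _ := h2
      _ ≤ K * μ := h1
      _ = _ := by rw [h5]
  have h7 : 0 < μ * w ^ c := by positivity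
  nlinarith

theorem sum_three (B : ∀ i, Matrix (Fin (dims i)) (Fin 3) ℝ) (c : Fin 3 → ℝ)
    (A : ∀ i, Matrix (Fin (dims i)) (Fin (dims i)) ℝ) :
    (∑ i, c i • ((B i)ᵀ * A i * B i)) =
      c 0 • ((show Matrix (Fin 2) (Fin 3) ℝ from B 0)ᵀ *
        (show Matrix (Fin 2) (Fin 2) ℝ from A 0) * (show Matrix (Fin 2) (Fin 3) ℝ from B 0)) +
      c 1 • ((show Matrix (Fin 1) (Fin 3) ℝ from B 1)ᵀ *
        (show Matrix (Fin 1) (Fin 1) ℝ from A 1) * (show Matrix (Fin 1) (Fin 3) ℝ from B 1)) +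
      c 2 • ((show Matrix (Fin 1) (Fin 3) ℝ from B 2)ᵀ *
        (show Matrix (Fin 1) (Fin 1) ℝ from A 2) * (show Matrix (Fin 1) (Fin 3) ℝ from B 2)) := by
  rw [Fin.sum_univ_three]
  rfl

theorem not_ext (B : ∀ i, Matrix (Fin (dims i)) (Fin 3) ℝ) (c : Fin 3 → ℝ)
    (U : Matrix (Fin 2) (Fin 3) ℝ) (b e : Matrix (Fin 1) (Fin 3) ℝ) (hU : B 0 = U)
    (hb : B 1 = b) (he : B 2 = e) (h1 : dt (U 0) (U 1) (b 0) ≠ 0)
    (h2 : dt (U 1) (b 0) (e 0) ≠ 0) : ¬ GaussExtremizable dims B c := by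
  rintro ⟨⟨-, hc⟩, -, A, hpA, hA⟩
  have hc0 := hc 0
  have hc1 := hc 1
  have hc2 := hc 2
  -- the determinant of a tuple
  set Δ2 := dt (U 0) (U 1) (b 0) with hΔ2
  set Δ3 := dt (U 0) (U 1) (e 0) with hΔ3
  set p := dt (U 0) (b 0) (e 0) with hp
  set q := dt (U 1) (b 0) (e 0) with hq
  have hdet : ∀ (A1 : Matrix (Fin 2) (Fin 2) ℝ) (a a' : Matrix (Fin 1) (Fin 1) ℝ),
      A1 1 0 = A1 0 1 → (∑ i, c i • ((B i)ᵀ * tup A1 a a' i * B i)).det =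
        c 0 ^ 2 * A1.det * (c 1 * a.det * Δ2 ^ 2 + c 2 * a'.det * Δ3 ^ 2)
      + c 0 * c 1 * c 2 * a.det * a'.det *
        (p ^ 2 * A1 0 0 + 2 * p * q * A1 0 1 + q ^ 2 * A1 1 1) := by
    intro A1 a a' hs
    rw [sum_three, ← det_formula U b e A1 hs a a' (c 0) (c 1) (c 2), ← hU, ← hb, ← he]
    rfl
  have hprod : ∀ (A1 : Matrix (Fin 2) (Fin 2) ℝ) (a a' : Matrix (Fin 1) (Fin 1) ℝ),
      (∏ i, (tup A1 a a' i).det ^ c i) = A1.det ^ c 0 * a.det ^ c 1 * a'.det ^ c 2 := by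
    intro A1 a a'
    rw [Fin.prod_univ_three]
    rfl
  have hquad : ∀ A1 : Matrix (Fin 2) (Fin 2) ℝ, A1.PosDef →
      0 < p ^ 2 * A1 0 0 + 2 * p * q * A1 0 1 + q ^ 2 * A1 1 1 := by
    intro A1 h
    have hs : A1 1 0 = A1 0 1 := by
      have := h.1.apply 0 1
      simpa using this
    have := h.dotProduct_mulVec_pos (x := ![p, q]) (by
      intro h0
      have := congrFun h0 1
      simp at this
      exact h2 this)
    simp only [dotProduct, Matrix.mulVec, Fin.sum_univ_two, Pi.star_apply, star_trivial,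
      Matrix.cons_val_zero, Matrix.cons_val_one, hs] at this
    nlinarith [this]
  have hsym : ∀ A1 : Matrix (Fin 2) (Fin 2) ℝ, A1.PosDef → A1 1 0 = A1 0 1 := by
    intro A1 h
    have := h.1.apply 0 1
    simpa using this
  have hdetpos : ∀ (A1 : Matrix (Fin 2) (Fin 2) ℝ) (a a' : Matrix (Fin 1) (Fin 1) ℝ),
      A1.PosDef → a.PosDef → a'.PosDef → 0 < (∑ i, c i • ((B i)ᵀ * tup A1 a a' i * B i)).det := by
    intro A1 a a' h h' h''
    rw [hdet A1 a a' (hsym A1 h)]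
    have e1 := h.det_pos
    have e2 := h'.det_pos
    have e3 := h''.det_pos
    have e4 := hquad A1 h
    positivity
  -- the extremizer as a tuple
  obtain ⟨A1, hA1⟩ : ∃ A1 : Matrix (Fin 2) (Fin 2) ℝ, A1 = A 0 := ⟨A 0, rfl⟩
  obtain ⟨A2, hA2⟩ : ∃ A2 : Matrix (Fin 1) (Fin 1) ℝ, A2 = A 1 := ⟨A 1, rfl⟩
  obtain ⟨A3, hA3⟩ : ∃ A3 : Matrix (Fin 1) (Fin 1) ℝ, A3 = A 2 := ⟨A 2, rfl⟩
  have hAt : A = tup A1 A2 A3 := by
    funext i
    fin_cases i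
    · exact hA1.symm
    · exact hA2.symm
    · exact hA3.symm
  have hq1 : A1.PosDef := by rw [hA1]; exact hpA 0
  have hq2 : A2.PosDef := by rw [hA2]; exact hpA 1
  have hq3 : A3.PosDef := by rw [hA3]; exact hpA 2
  have htp : ∀ (X : Matrix (Fin 2) (Fin 2) ℝ) (a a' : Matrix (Fin 1) (Fin 1) ℝ),
      X.PosDef → a.PosDef → a'.PosDef → ∀ i, (tup X a a' i).PosDef := by
    intro X a a' h h' h'' i
    fin_cases i
    · exact h
    · exact h'
    · exact h''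
  rw [hAt] at hA
  have key : ∀ (X : Matrix (Fin 2) (Fin 2) ℝ) (a a' : Matrix (Fin 1) (Fin 1) ℝ),
      X.PosDef → a.PosDef → a'.PosDef →
      (X.det ^ c 0 * a.det ^ c 1 * a'.det ^ c 2) *
        (c 0 ^ 2 * A1.det * (c 1 * A2.det * Δ2 ^ 2 + c 2 * A3.det * Δ3 ^ 2)
          + c 0 * c 1 * c 2 * A2.det * A3.det *
          (p ^ 2 * A1 0 0 + 2 * p * q * A1 0 1 + q ^ 2 * A1 1 1)) ≤
      (A1.det ^ c 0 * A2.det ^ c 1 * A3.det ^ c 2) *
        (c 0 ^ 2 * X.det * (c 1 * a.det * Δ2 ^ 2 + c 2 * a'.det * Δ3 ^ 2)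
          + c 0 * c 1 * c 2 * a.det * a'.det *
          (p ^ 2 * X 0 0 + 2 * p * q * X 0 1 + q ^ 2 * X 1 1)) := by
    intro X a a' h h' h''
    have := bound_of_ext hA (htp A1 A2 A3 hq1 hq2 hq3) (htp X a a' h h' h'')
      (hdetpos A1 A2 A3 hq1 hq2 hq3) (hdetpos X a a' h h' h'')
    rw [hprod, hprod, hdet _ _ _ (hsym _ hq1), hdet _ _ _ (hsym _ h)] at this
    exact this
  have e1 := hq1.det_pos
  have e2 := hq2.det_pos
  have e3 := hq3.det_pos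
  have e4 := hquad A1 hq1
  set N : ℝ := A1.det ^ c 0 * A2.det ^ c 1 * A3.det ^ c 2 with hN
  have hN0 : 0 < N := by
    have := Real.rpow_pos_of_pos e1 (c 0)
    have := Real.rpow_pos_of_pos e2 (c 1)
    have := Real.rpow_pos_of_pos e3 (c 2)
    positivity
  set D1 : ℝ := c 0 ^ 2 * A1.det * (c 1 * A2.det * Δ2 ^ 2 + c 2 * A3.det * Δ3 ^ 2) with hD1
  set D2 : ℝ := c 0 * c 1 * c 2 * A2.det * A3.det *
          (p ^ 2 * A1 0 0 + 2 * p * q * A1 0 1 + q ^ 2 * A1 1 1) with hD2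
  have hD10 : 0 < D1 := by
    have : 0 < Δ2 ^ 2 := by positivity
    positivity
  have hD20 : 0 < D2 := by positivity
  have hw : 0 < p ^ 2 + q ^ 2 := by positivity
  -- the first exponent is at least one
  have hge : 1 ≤ c 0 := by
    set K : ℝ := N * (c 0 ^ 2 * (p ^ 2 + q ^ 2 + 1) * (c 1 * Δ2 ^ 2 + c 2 * Δ3 ^ 2)
      + c 0 * c 1 * c 2 * (p ^ 2 + q ^ 2)) / (D1 + D2) with hK
    have hK0 : 0 ≤ K := by positivity
    refine c_ge_one hw hK0 ?_ hc0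
    intro μ hμ hμ1
    have h := key _ 1 1 (posDef_two p q μ hμ) posDef_one posDef_one
    simp only [Matrix.det_one, Real.one_rpow, mul_one, Matrix.det_fin_two_of, Matrix.of_apply,
      Matrix.cons_val', Matrix.cons_val_zero, Matrix.cons_val_one, Matrix.cons_val_fin_one] at h
    have hd : (q ^ 2 + μ) * (p ^ 2 + μ) - -(p * q) * -(p * q) = μ * (p ^ 2 + q ^ 2 + μ) := by
      ring
    rw [hd] at h
    have hle : N * (c 0 ^ 2 * (μ * (p ^ 2 + q ^ 2 + μ)) * (c 1 * Δ2 ^ 2 + c 2 * Δ3 ^ 2) +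
        c 0 * c 1 * c 2 *
          (p ^ 2 * (q ^ 2 + μ) + 2 * p * q * -(p * q) + q ^ 2 * (p ^ 2 + μ))) ≤
        K * μ * (D1 + D2) := by
      have hKm : K * μ * (D1 + D2) = N * (c 0 ^ 2 * (p ^ 2 + q ^ 2 + 1) *
          (c 1 * Δ2 ^ 2 + c 2 * Δ3 ^ 2) + c 0 * c 1 * c 2 * (p ^ 2 + q ^ 2)) * μ := by
        rw [hK]
        field_simp
      rw [hKm]
      have h8 : c 0 ^ 2 * (μ * (p ^ 2 + q ^ 2 + μ)) * (c 1 * Δ2 ^ 2 + c 2 * Δ3 ^ 2) ≤
          c 0 ^ 2 * (μ * (p ^ 2 + q ^ 2 + 1)) * (c 1 * Δ2 ^ 2 + c 2 * Δ3 ^ 2) := by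
        gcongr
      have h9 : p ^ 2 * (q ^ 2 + μ) + 2 * p * q * -(p * q) + q ^ 2 * (p ^ 2 + μ)
          = μ * (p ^ 2 + q ^ 2) := by ring
      rw [h9]
      calc _ ≤ N * (c 0 ^ 2 * (μ * (p ^ 2 + q ^ 2 + 1)) * (c 1 * Δ2 ^ 2 + c 2 * Δ3 ^ 2) +
        c 0 * c 1 * c 2 * (μ * (p ^ 2 + q ^ 2))) := by gcongr
        _ = _ := by ring
    have h10 := h.trans hle
    exact le_of_mul_le_mul_right h10 (by positivity)
  -- doubling the first matrix increases the functional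
  have h := key ((2 : ℝ) • A1) A2 A3 (hq1.smul (by norm_num)) hq2 hq3
  have hdd : ((2 : ℝ) • A1).det = 4 * A1.det := by
    rw [Matrix.det_smul]
    simp
    norm_num
  rw [hdd, Real.mul_rpow (by norm_num) e1.le] at h
  simp only [Matrix.smul_apply, smul_eq_mul] at h
  have h4 : (4 : ℝ) ≤ 4 ^ c 0 := by
    calc (4 : ℝ) = 4 ^ (1 : ℝ) := (Real.rpow_one _).symm
      _ ≤ 4 ^ c 0 := Real.rpow_le_rpow_of_exponent_le (by norm_num) hge
  have hl : 4 * N * (D1 + D2) ≤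
      4 ^ c 0 * A1.det ^ c 0 * A2.det ^ c 1 * A3.det ^ c 2 * (D1 + D2) := by
    have : 4 ^ c 0 * A1.det ^ c 0 * A2.det ^ c 1 * A3.det ^ c 2 = 4 ^ c 0 * N := by
      rw [hN]; ring
    rw [this]
    gcongr
  have hr : N * (c 0 ^ 2 * (4 * A1.det) * (c 1 * A2.det * Δ2 ^ 2 + c 2 * A3.det * Δ3 ^ 2) +
      c 0 * c 1 * c 2 * A2.det * A3.det *
        (p ^ 2 * (2 * A1 0 0) + 2 * p * q * (2 * A1 0 1) + q ^ 2 * (2 * A1 1 1))) =
      N * (4 * D1 + 2 * D2) := by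
    rw [hD1, hD2]; ring
  rw [hr] at h
  have := hl.trans h
  nlinarith [mul_pos hN0 hD20]

/-! ## The example is feasible -/

theorem ex_isDatum : IsDatum dims exB exC := by
  refine ⟨?_, ?_⟩
  · intro i
    fin_cases i
    · intro y
      obtain ⟨y, rfl⟩ : ∃ y' : Fin 2 → ℝ, y' = y := ⟨y, rfl⟩
      refine ⟨![y 0, y 1, 0], ?_⟩
      show (!![1, 0, 0; 0, 1, 0] : Matrix (Fin 2) (Fin 3) ℝ) *ᵥ ![y 0, y 1, 0] = y
      ext j
      fin_cases j <;> simp [Matrix.mulVec, dotProduct, Fin.sum_univ_three]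
    · intro y
      obtain ⟨y, rfl⟩ : ∃ y' : Fin 1 → ℝ, y' = y := ⟨y, rfl⟩
      refine ⟨![0, 0, y 0], ?_⟩
      show (!![0, 0, 1] : Matrix (Fin 1) (Fin 3) ℝ) *ᵥ ![0, 0, y 0] = y
      ext j
      fin_cases j
      simp [Matrix.mulVec, dotProduct, Fin.sum_univ_three]
    · intro y
      obtain ⟨y, rfl⟩ : ∃ y' : Fin 1 → ℝ, y' = y := ⟨y, rfl⟩
      refine ⟨![y 0, 0, 0], ?_⟩
      show (!![1, 0, 1] : Matrix (Fin 1) (Fin 3) ℝ) *ᵥ ![y 0, 0, 0] = y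
      ext j
      fin_cases j
      simp [Matrix.mulVec, dotProduct, Fin.sum_univ_three]
  · intro i
    fin_cases i
    · show (0 : ℝ) < 1
      norm_num
    · show (0 : ℝ) < 1 / 2
      norm_num
    · show (0 : ℝ) < 1 / 2
      norm_num

/-- splitting `ℝ³` as `ℝ² × ℝ` -/
theorem lint_split (Φ : (Fin 3 → ℝ) → ℝ≥0∞) :
    ∫⁻ x, Φ x ≤ ∫⁻ y : Fin 2 → ℝ, ∫⁻ t : ℝ, Φ ![y 0, y 1, t] := by
  have h1 := (volume_preserving_piFinSuccAbove (fun _ : Fin 3 => ℝ) (Fin.last 2)).symm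
  have h2 : MeasurePreserving (Prod.swap : (Fin 2 → ℝ) × ℝ → ℝ × (Fin 2 → ℝ)) volume volume :=
    Measure.measurePreserving_swap
  have e1 := h1.lintegral_comp_emb (MeasurableEquiv.measurableEmbedding _) Φ
  have e2 := h2.lintegral_comp_emb
    (MeasurableEquiv.prodComm (α := Fin 2 → ℝ) (β := ℝ)).measurableEmbedding
    (fun z => Φ ((MeasurableEquiv.piFinSuccAbove (fun _ : Fin 3 => ℝ) (Fin.last 2)).symm z))
  rw [← e1, ← e2]
  refine (lintegral_prod_le _).trans (le_of_eq ?_)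
  congr 1
  funext y
  congr 1
  funext t
  congr 1
  ext i
  fin_cases i <;> rfl

theorem lint_one (g : (Fin 1 → ℝ) → ℝ≥0∞) : ∫⁻ t : ℝ, g (fun _ => t) = ∫⁻ y, g y := by
  have h := (volume_preserving_funUnique (Fin 1) ℝ).symm
  exact h.lintegral_comp_emb (MeasurableEquiv.measurableEmbedding _) g

theorem integrable_one {g : (Fin 1 → ℝ) → ℝ} (hg : Integrable g) :
    Integrable (fun t : ℝ => g (fun _ => t)) := by
  have h := (volume_preserving_funUnique (Fin 1) ℝ).symm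
  exact (h.integrable_comp_emb (MeasurableEquiv.measurableEmbedding _)).2 hg

theorem holder_half {F G : ℝ → ℝ≥0∞} (hF : AEMeasurable F) (hG : AEMeasurable G) (s : ℝ) :
    ∫⁻ t, F t ^ (1 / 2 : ℝ) * G (s + t) ^ (1 / 2 : ℝ) ≤
      (∫⁻ t, F t) ^ (1 / 2 : ℝ) * (∫⁻ t, G t) ^ (1 / 2 : ℝ) := by
  have hG' : AEMeasurable (fun t => G (s + t)) :=
    hG.comp_quasiMeasurePreserving (measurePreserving_add_left volume s).quasiMeasurePreserving
  have h := ENNReal.lintegral_mul_le_Lp_mul_Lq volume Real.HolderConjugate.two_two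
    (hF.pow_const (1 / 2 : ℝ)) (hG'.pow_const (1 / 2 : ℝ))
  have h1 : ∀ z : ℝ≥0∞, (z ^ (1 / 2 : ℝ)) ^ (2 : ℝ) = z := by
    intro z
    rw [← ENNReal.rpow_mul]
    norm_num
  simp only [Pi.mul_apply, h1] at h
  refine h.trans (le_of_eq ?_)
  rw [lintegral_add_left_eq_self (fun t => G t) s]

theorem ex_ineq : BLIneq dims exB exC 1 := by
  intro f hf hf0
  obtain ⟨f0, hf0'⟩ : ∃ f0 : (Fin 2 → ℝ) → ℝ, f0 = f 0 := ⟨f 0, rfl⟩
  obtain ⟨f1, hf1'⟩ : ∃ f1 : (Fin 1 → ℝ) → ℝ, f1 = f 1 := ⟨f 1, rfl⟩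
  obtain ⟨f2, hf2'⟩ : ∃ f2 : (Fin 1 → ℝ) → ℝ, f2 = f 2 := ⟨f 2, rfl⟩
  have hi0 : Integrable f0 := by rw [hf0']; exact hf 0
  have hi1 : Integrable f1 := by rw [hf1']; exact hf 1
  have hi2 : Integrable f2 := by rw [hf2']; exact hf 2
  have hn0 : ∀ y, 0 ≤ f0 y := by rw [hf0']; exact hf0 0
  have hn1 : ∀ y, 0 ≤ f1 y := by rw [hf1']; exact hf0 1
  have hn2 : ∀ y, 0 ≤ f2 y := by rw [hf2']; exact hf0 2
  have hL : ∀ x : Fin 3 → ℝ, (∏ i, f i (exB i *ᵥ x) ^ exC i) =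
      f0 ![x 0, x 1] ^ (1 : ℝ) * f1 (fun _ => x 2) ^ (1 / 2 : ℝ) *
        f2 (fun _ => x 0 + x 2) ^ (1 / 2 : ℝ) := by
    intro x
    rw [Fin.prod_univ_three]
    have e0 : (exB 0 *ᵥ x : Fin 2 → ℝ) = ![x 0, x 1] := by
      show (!![1, 0, 0; 0, 1, 0] : Matrix (Fin 2) (Fin 3) ℝ) *ᵥ x = ![x 0, x 1]
      ext j
      fin_cases j <;> simp [Matrix.mulVec, dotProduct, Fin.sum_univ_three]
    have e1 : (exB 1 *ᵥ x : Fin 1 → ℝ) = fun _ => x 2 := by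
      show (!![0, 0, 1] : Matrix (Fin 1) (Fin 3) ℝ) *ᵥ x = fun _ => x 2
      ext j
      fin_cases j
      simp [Matrix.mulVec, dotProduct, Fin.sum_univ_three]
    have e2 : (exB 2 *ᵥ x : Fin 1 → ℝ) = fun _ => x 0 + x 2 := by
      show (!![1, 0, 1] : Matrix (Fin 1) (Fin 3) ℝ) *ᵥ x = fun _ => x 0 + x 2
      ext j
      fin_cases j
      simp [Matrix.mulVec, dotProduct, Fin.sum_univ_three]
    rw [hf0', hf1', hf2']
    show f 0 (exB 0 *ᵥ x) ^ (1 : ℝ) * f 1 (exB 1 *ᵥ x) ^ (1 / 2 : ℝ) *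
      f 2 (exB 2 *ᵥ x) ^ (1 / 2 : ℝ) = _
    erw [e0, e1, e2]
  have hR : (∏ i, (∫ y, f i y) ^ exC i) =
      (∫ y, f0 y) ^ (1 : ℝ) * (∫ y, f1 y) ^ (1 / 2 : ℝ) * (∫ y, f2 y) ^ (1 / 2 : ℝ) := by
    rw [Fin.prod_univ_three, hf0', hf1', hf2']
    rfl
  rw [hR]
  simp only [hL]
  set F0 : (Fin 2 → ℝ) → ℝ≥0∞ := fun y => ENNReal.ofReal (f0 y) with hF0
  set F1 : ℝ → ℝ≥0∞ := fun t => ENNReal.ofReal (f1 (fun _ => t)) with hF1
  set F2 : ℝ → ℝ≥0∞ := fun t => ENNReal.ofReal (f2 (fun _ => t)) with hF2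
  have hm1 : AEMeasurable F1 := (integrable_one hi1).aestronglyMeasurable.aemeasurable.ennreal_ofReal
  have hm2 : AEMeasurable F2 := (integrable_one hi2).aestronglyMeasurable.aemeasurable.ennreal_ofReal
  have hI0 : ∫⁻ y, F0 y = ENNReal.ofReal (∫ y, f0 y) :=
    (ofReal_integral_eq_lintegral_ofReal hi0 (Filter.Eventually.of_forall hn0)).symm
  have hI1 : ∫⁻ t, F1 t = ENNReal.ofReal (∫ y, f1 y) := by
    rw [ofReal_integral_eq_lintegral_ofReal hi1 (Filter.Eventually.of_forall hn1)]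
    exact lint_one fun y => ENNReal.ofReal (f1 y)
  have hI2 : ∫⁻ t, F2 t = ENNReal.ofReal (∫ y, f2 y) := by
    rw [ofReal_integral_eq_lintegral_ofReal hi2 (Filter.Eventually.of_forall hn2)]
    exact lint_one fun y => ENNReal.ofReal (f2 y)
  refine (lint_split _).trans ?_
  have hin : ∀ (y : Fin 2 → ℝ) (t : ℝ),
      ENNReal.ofReal (f0 ![(![y 0, y 1, t] : Fin 3 → ℝ) 0, (![y 0, y 1, t] : Fin 3 → ℝ) 1] ^ (1 : ℝ)
        * f1 (fun _ => (![y 0, y 1, t] : Fin 3 → ℝ) 2) ^ (1 / 2 : ℝ) *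
        f2 (fun _ => (![y 0, y 1, t] : Fin 3 → ℝ) 0 + (![y 0, y 1, t] : Fin 3 → ℝ) 2)
          ^ (1 / 2 : ℝ)) =
      F0 y * (F1 t ^ (1 / 2 : ℝ) * F2 (y 0 + t) ^ (1 / 2 : ℝ)) := by
    intro y t
    have ey : (![y 0, y 1] : Fin 2 → ℝ) = y := by
      ext j
      fin_cases j <;> rfl
    show ENNReal.ofReal (f0 ![y 0, y 1] ^ (1 : ℝ) * f1 (fun _ => t) ^ (1 / 2 : ℝ) *
        f2 (fun _ => y 0 + t) ^ (1 / 2 : ℝ)) = _
    rw [ey, Real.rpow_one, hF0, hF1, hF2]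
    dsimp only
    rw [ENNReal.ofReal_rpow_of_nonneg (hn1 _) (by norm_num),
      ENNReal.ofReal_rpow_of_nonneg (hn2 _) (by norm_num), mul_assoc,
      ENNReal.ofReal_mul (hn0 _), ENNReal.ofReal_mul (Real.rpow_nonneg (hn1 _) _)]
  calc ∫⁻ y : Fin 2 → ℝ, ∫⁻ t : ℝ, _ = ∫⁻ y : Fin 2 → ℝ, ∫⁻ t : ℝ,
        F0 y * (F1 t ^ (1 / 2 : ℝ) * F2 (y 0 + t) ^ (1 / 2 : ℝ)) := by
        congr 1; funext y; congr 1; funext t; exact hin y t
    _ = ∫⁻ y : Fin 2 → ℝ, F0 y * ∫⁻ t : ℝ, F1 t ^ (1 / 2 : ℝ) * F2 (y 0 + t) ^ (1 / 2 : ℝ) := by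
        congr 1; funext y
        exact lintegral_const_mul' _ _ ENNReal.ofReal_ne_top
    _ ≤ ∫⁻ y : Fin 2 → ℝ, F0 y * ((∫⁻ t, F1 t) ^ (1 / 2 : ℝ) * (∫⁻ t, F2 t) ^ (1 / 2 : ℝ)) := by
        refine lintegral_mono fun y => ?_
        exact mul_le_mul_right (holder_half hm1 hm2 (y 0)) _
    _ = (∫⁻ y, F0 y) * ((∫⁻ t, F1 t) ^ (1 / 2 : ℝ) * (∫⁻ t, F2 t) ^ (1 / 2 : ℝ)) := by
        refine lintegral_mul_const' _ _ ?_
        rw [hI1, hI2]
        refine ENNReal.mul_ne_top ?_ ?_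
        · exact ENNReal.rpow_ne_top_of_nonneg (by norm_num) ENNReal.ofReal_ne_top
        · exact ENNReal.rpow_ne_top_of_nonneg (by norm_num) ENNReal.ofReal_ne_top
    _ = 1 * ENNReal.ofReal ((∫ y, f0 y) ^ (1 : ℝ) * (∫ y, f1 y) ^ (1 / 2 : ℝ) *
          (∫ y, f2 y) ^ (1 / 2 : ℝ)) := by
        have n0 : 0 ≤ ∫ y, f0 y := integral_nonneg hn0
        have n1 : 0 ≤ ∫ y, f1 y := integral_nonneg hn1
        have n2 : 0 ≤ ∫ y, f2 y := integral_nonneg hn2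
        rw [hI0, hI1, hI2, Real.rpow_one, one_mul,
          ENNReal.ofReal_rpow_of_nonneg n1 (by norm_num),
          ENNReal.ofReal_rpow_of_nonneg n2 (by norm_num), mul_assoc (∫ y, f0 y),
          ENNReal.ofReal_mul n0, ENNReal.ofReal_mul (Real.rpow_nonneg n1 _)]

theorem ex_feasible : Feasible dims exB exC := by
  refine ⟨ex_isDatum, lt_of_le_of_lt (sInf_le ex_ineq) ENNReal.one_lt_top⟩

/-! ## Estimates near the example -/

theorem tri {a b c A B C : ℝ} (ha : |a| ≤ A) (hb : |b| ≤ B) (hc : |c| ≤ C) :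
    |a * b * c| ≤ A * B * C := by
  rw [abs_mul, abs_mul]
  have hA : 0 ≤ A := (abs_nonneg a).trans ha
  have hB : 0 ≤ B := (abs_nonneg b).trans hb
  gcongr

/-- three rows within `1/20` of a permutation-like pattern: the determinant is not zero -/
theorem dt_ne {x y z : Fin 3 → ℝ} (h : ∀ i j : Fin 3,
    |(![x, y, z] : Fin 3 → Fin 3 → ℝ) i j - (if i = j then 1 else 0)| ≤ 1 / 20) :
    dt x y z ≠ 0 := by
  have hx0 : |x 0 - 1| ≤ 1 / 20 := by simpa using h 0 0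
  have hx1 : |x 1| ≤ 1 / 20 := by simpa using h 0 1
  have hx2 : |x 2| ≤ 1 / 20 := by simpa using h 0 2
  have hy0 : |y 0| ≤ 1 / 20 := by simpa using h 1 0
  have hy1 : |y 1 - 1| ≤ 1 / 20 := by simpa using h 1 1
  have hy2 : |y 2| ≤ 1 / 20 := by simpa using h 1 2
  have hz0 : |z 0| ≤ 1 / 20 := by simpa using h 2 0
  have hz1 : |z 1| ≤ 1 / 20 := by simpa using h 2 1
  have hz2 : |z 2 - 1| ≤ 1 / 20 := by simpa using h 2 2
  have hx0' : |x 0| ≤ 21 / 20 := by rw [abs_le] at *; constructor <;> linarith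
  have hy1' : |y 1| ≤ 21 / 20 := by rw [abs_le] at *; constructor <;> linarith
  have hz2' : |z 2| ≤ 21 / 20 := by rw [abs_le] at *; constructor <;> linarith
  have t1 := tri hx0' hy2 hz1
  have t2 := tri hx1 hy0 hz2'
  have t3 := tri hx1 hy2 hz0
  have t4 := tri hx2 hy0 hz1
  have t5 := tri hx2 hy1' hz0
  have t0 : 1 / 2 ≤ x 0 * y 1 * z 2 := by
    rw [abs_le] at hx0 hy1 hz2
    have h1 : (19 / 20 : ℝ) * (19 / 20) ≤ x 0 * y 1 :=
      mul_le_mul (by linarith) (by linarith) (by norm_num) (by linarith)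
    have h2 : (19 / 20 : ℝ) * (19 / 20) * (19 / 20) ≤ x 0 * y 1 * z 2 :=
      mul_le_mul h1 (by linarith) (by norm_num) (by linarith)
    linarith
  rw [abs_le] at t1 t2 t3 t4 t5
  unfold dt
  intro h0
  linarith [t1.1, t1.2, t2.1, t2.2, t3.1, t3.2, t4.1, t4.2, t5.1, t5.2]

theorem near_not_ext (B : ∀ i, Matrix (Fin (dims i)) (Fin 3) ℝ) (c : Fin 3 → ℝ)
    (hB : ∀ i j l, |exB i j l - B i j l| < 1 / 40) : ¬ GaussExtremizable dims B c := by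
  obtain ⟨U, hU⟩ : ∃ U : Matrix (Fin 2) (Fin 3) ℝ, B 0 = U := ⟨B 0, rfl⟩
  obtain ⟨b, hb⟩ : ∃ b : Matrix (Fin 1) (Fin 3) ℝ, B 1 = b := ⟨B 1, rfl⟩
  obtain ⟨e, he⟩ : ∃ e : Matrix (Fin 1) (Fin 3) ℝ, B 2 = e := ⟨B 2, rfl⟩
  have h0 : ∀ (j : Fin 2) (l : Fin 3),
      |(!![1, 0, 0; 0, 1, 0] : Matrix (Fin 2) (Fin 3) ℝ) j l - U j l| < 1 / 40 := by
    intro j l
    rw [← hU]
    exact hB 0 j l
  have h1 : ∀ (j : Fin 1) (l : Fin 3),
      |(!![0, 0, 1] : Matrix (Fin 1) (Fin 3) ℝ) j l - b j l| < 1 / 40 := by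
    intro j l
    rw [← hb]
    exact hB 1 j l
  have h2 : ∀ (j : Fin 1) (l : Fin 3),
      |(!![1, 0, 1] : Matrix (Fin 1) (Fin 3) ℝ) j l - e j l| < 1 / 40 := by
    intro j l
    rw [← he]
    exact hB 2 j l
  have a00 : |1 - U 0 0| < 1 / 40 := by simpa using h0 0 0
  have a01 : |0 - U 0 1| < 1 / 40 := by simpa using h0 0 1
  have a02 : |0 - U 0 2| < 1 / 40 := by simpa using h0 0 2
  have a10 : |0 - U 1 0| < 1 / 40 := by simpa using h0 1 0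
  have a11 : |1 - U 1 1| < 1 / 40 := by simpa using h0 1 1
  have a12 : |0 - U 1 2| < 1 / 40 := by simpa using h0 1 2
  have b0 : |0 - b 0 0| < 1 / 40 := by simpa using h1 0 0
  have b1 : |0 - b 0 1| < 1 / 40 := by simpa using h1 0 1
  have b2 : |1 - b 0 2| < 1 / 40 := by simpa using h1 0 2
  have e0 : |1 - e 0 0| < 1 / 40 := by simpa using h2 0 0
  have e1 : |0 - e 0 1| < 1 / 40 := by simpa using h2 0 1
  have e2 : |1 - e 0 2| < 1 / 40 := by simpa using h2 0 2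
  rw [abs_lt] at a00 a01 a02 a10 a11 a12 b0 b1 b2 e0 e1 e2
  refine not_ext B c U b e hU hb he ?_ ?_
  · apply dt_ne
    intro i j
    fin_cases i <;> fin_cases j <;> simp only [Fin.zero_eta, Fin.mk_one, Fin.reduceFinMk,
      Matrix.cons_val_zero, Matrix.cons_val_one, Matrix.cons_val, Fin.isValue, if_true, if_false,
      Fin.reduceEq, zero_ne_one, one_ne_zero] <;> rw [abs_le] <;>
      constructor <;> linarith
  · have hd : dt (fun l => e 0 l - b 0 l) (U 1) (b 0) ≠ 0 := by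
      apply dt_ne
      intro i j
      fin_cases i <;> fin_cases j <;> simp only [Fin.zero_eta, Fin.mk_one, Fin.reduceFinMk,
        Matrix.cons_val_zero, Matrix.cons_val_one, Matrix.cons_val, Fin.isValue, if_true,
        if_false, Fin.reduceEq, zero_ne_one, one_ne_zero] <;> rw [abs_le] <;>
        constructor <;> linarith
    intro h
    apply hd
    rw [← h]
    unfold dt
    ring

/-- **Main theorem.** The gaussian-extremizable data are not dense among the feasible ones: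
there are dimensions, a feasible datum `(B, c)` and `ε > 0` such that no datum `(B', c')` with
the same dimensions whose matrix entries and exponents are within `ε` of those of `(B, c)` is
gaussian-extremizable. -/
theorem result : ∃ (k d : ℕ) (dd : Fin k → ℕ) (B : ∀ i, Matrix (Fin (dd i)) (Fin d) ℝ)
    (c : Fin k → ℝ), 1 ≤ k ∧ 1 ≤ d ∧ (∀ i, 1 ≤ dd i) ∧ Feasible dd B c ∧
      ∃ ε : ℝ, 0 < ε ∧ ∀ (B' : ∀ i, Matrix (Fin (dd i)) (Fin d) ℝ) (c' : Fin k → ℝ),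
        (∀ i j l, |B i j l - B' i j l| < ε) → (∀ i, |c i - c' i| < ε) →
          ¬ GaussExtremizable dd B' c' := by
  refine ⟨3, 3, dims, exB, exC, by norm_num, by norm_num, ?_, ex_feasible, 1 / 40, by norm_num,
    fun B' c' hB _ => near_not_ext B' c' hB⟩
  intro i
  fin_cases i
  · show 1 ≤ 2
    norm_num
  · exact le_refl 1
  · exact le_refl 1

end Pool.Agent.Results.MP_b8a264_an.NotDense
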